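import Pool.Agent.Lib.MP_b5021c_nt.IfaceL2

/-!
# Board b5, row DRB: the drop bound
-/

namespace Pool.Agent.B5.H49

open Pool.Agent.B5
open scoped LaurentPolynomial

instance circleNontrivial : Nontrivial Circle :=
  ⟨1, -1, fun h => by
    have h2 : ((1 : Circle) : ℂ) = ((-1 : Circle) : ℂ) := congrArg _ h
    rw [Circle.coe_one, Circle.coe_neg, Circle.coe_one] at h2
    norm_num at h2⟩

/-- The complement of a finite subset of the circle is dense. -/
theorem dense_compl_finite (s : Set Circle) (hs : s.Finite) : Dense sᶜ := by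
  have h := (dense_univ (X := Circle)).sdiff_finite hs
  rwa [← Set.compl_eq_univ_sdiff] at h

/-- The ports of an exponent. -/
def ports {P L : Type} [Fintype P] [DecidableEq P] [AddCommGroup L] (phi : L →+ (P → ℤ)) (a : L) :
    Finset P := Finset.univ.filter fun p => phi a p = 1

/-- Values of `phi` on a sum of disjoint exponents. -/
theorem phi_sum {P L : Type} [Fintype P] [DecidableEq P] [AddCommGroup L] (phi : L →+ (P → ℤ))
    (n : ℕ) (S : Fin n → L) (hb : ∀ i, Bin phi (S i))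
    (hd : ∀ i j, i ≠ j → ∀ p, phi (S i) p = 0 ∨ phi (S j) p = 0) (I : Finset (Fin n)) (p : P) :
    phi (∑ i ∈ I, S i) p = if p ∈ I.biUnion (fun i => ports phi (S i)) then 1 else 0 := by
  rw [map_sum, Finset.sum_apply]
  split_ifs with h
  · rw [Finset.mem_biUnion] at h
    obtain ⟨i, hi, hp⟩ := h
    have hp1 : phi (S i) p = 1 := (Finset.mem_filter.1 hp).2
    rw [Finset.sum_eq_single i, hp1]
    · intro j _ hji
      rcases hd i j hji.symm p with h0 | h0
      · rw [hp1] at h0; exact absurd h0 one_ne_zero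
      · exact h0
    · intro h0; exact absurd hi h0
  · apply Finset.sum_eq_zero
    intro i hi
    rcases hb i p with h0 | h0
    · exact h0
    · exfalso
      apply h
      rw [Finset.mem_biUnion]
      exact ⟨i, hi, Finset.mem_filter.2 ⟨Finset.mem_univ _, h0⟩⟩

/-- The pointwise inequality. -/
theorem pointwise (hSPK : SPKS) (hAs : AsanoS) (hPoly : PolyS) (hEv : EvRS)
    (O : Type) [CommRing O] [IsDomain O] [IsPrincipalIdealRing O] [Coef O]
    (P L : Type) [Fintype P] [DecidableEq P] [AddCommGroup L] [Module.Free ℤ L]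
    [Module.Finite ℤ L] (phi : L →+ (P → ℤ)) (D : AO O L) (eta : L → (RO O)ˣ) (g : ℕ)
    (S : Fin (g + 1) → L) (hphi : Function.Injective phi) (hbin : ∀ a ∈ supp D, Bin phi a)
    (hst : Stable D) (hz : ∀ z : Circle, evR z (D.coeff 0) ≠ 0) (hray : ∀ i, Ray D (S i))
    (hd : ∀ i j, i ≠ j → ∀ p, phi (S i) p = 0 ∨ phi (S j) p = 0)
    (hI : ∀ I : Finset (Fin (g + 1)), I.Nonempty →
      (∏ i ∈ I, (eta (S i) : RO O)) * D.coeff (∑ i ∈ I, S i) =
        (-1) ^ (I.card + 1) * ((eta (S 0) : RO O) * D.coeff (S 0)))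
    (z : Circle) (hV : evR z (D.coeff 0 + (eta (S 0) : RO O) * D.coeff (S 0)) ≠ 0) :
    ((g : ℝ) - 1) * ‖evR z (D.coeff (S 0))‖ ≤ ‖evR z (D.coeff 0)‖ := by
  have hbS : ∀ i, Bin phi (S i) := fun i => hbin _ (hray i).1
  obtain ⟨hw, hc⟩ := hPoly O P L phi D hphi hbin hst z (hz z)
  have h1 := hAs P (cfz phi z D) hw (g + 1) (fun i => ports phi (S i)) (by
    intro i j hij
    rw [Finset.disjoint_left]
    intro p hp hp'
    have e1 : phi (S i) p = 1 := (Finset.mem_filter.1 hp).2
    have e2 : phi (S j) p = 1 := (Finset.mem_filter.1 hp').2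
    rcases hd i j hij p with h | h
    · rw [e1] at h; exact one_ne_zero h
    · rw [e2] at h; exact one_ne_zero h) (by
    intro i
    have h1 : phi (S i) ≠ 0 := fun h => (hray i).2.1 (hphi (by rw [h, map_zero]))
    obtain ⟨p, hp⟩ := Function.ne_iff.1 h1
    refine ⟨p, Finset.mem_filter.2 ⟨Finset.mem_univ _, ?_⟩⟩
    rcases hbS i p with h | h
    · exact absurd h hp
    · exact h)
  have h2 : ∀ I : Finset (Fin (g + 1)), cfz phi z D (I.biUnion fun i => ports phi (S i)) =
      evR z (D.coeff (∑ i ∈ I, S i)) := fun I => hc _ _ (phi_sum phi _ S hbS hd I)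
  have h3 := hSPK g (fun I => cfz phi z D (I.biUnion fun i => ports phi (S i))) h1
  simp only [h2, Finset.sum_empty, Finset.sum_singleton] at h3
  set q : ℂ := evR z (D.coeff 0) with hq
  set b0 : ℂ := evR z (D.coeff (S 0)) with hb0
  set e0 : ℂ := evR z (eta (S 0) : RO O) with he0
  have hV0 : evR z (D.coeff 0 + (eta (S 0) : RO O) * D.coeff (S 0)) = q + e0 * b0 := by
    rw [map_add, map_mul]
  rw [hV0] at hV
  have hunit : ∀ u : (RO O)ˣ, ‖evR z (u : RO O)‖ = 1 := fun u => (hEv O).2.1 z _ u.isUnit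
  have h4 : ∀ i : Fin g, ‖q * evR z (D.coeff (∑ j ∈ ({0, i.succ} : Finset (Fin (g + 1))), S j)) -
      b0 * evR z (D.coeff (S i.succ))‖ = ‖b0‖ * ‖q + e0 * b0‖ := by
    intro i
    have hne : (0 : Fin (g + 1)) ≠ i.succ := (Fin.succ_ne_zero i).symm
    have a1 := hI {i.succ} (Finset.singleton_nonempty _)
    rw [Finset.prod_singleton, Finset.sum_singleton, Finset.card_singleton] at a1
    have a2 := hI {0, i.succ} ⟨0, by simp⟩
    rw [Finset.prod_pair hne, Finset.card_pair hne] at a2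
    have b1 := congrArg (evR z) a1
    have b2 := congrArg (evR z) a2
    simp only [map_mul, map_pow, map_neg, map_one] at b1 b2
    rw [← he0, ← hb0] at b1 b2
    set x : ℂ := evR z (D.coeff (∑ j ∈ ({0, i.succ} : Finset (Fin (g + 1))), S j)) with hx
    set bi : ℂ := evR z (D.coeff (S i.succ)) with hbi
    set ei : ℂ := evR z (eta (S i.succ) : RO O) with hei
    have he0n : e0 ≠ 0 := by
      intro h
      have := hunit (eta (S 0))
      rw [← he0, h, norm_zero] at this
      exact zero_ne_one this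
    have c1 : ei * x = -b0 := by
      apply mul_left_cancel₀ he0n
      linear_combination b2
    have c2 : ei * (q * x - b0 * bi) = -(b0 * (q + e0 * b0)) := by
      linear_combination q * c1 - b0 * b1
    have c3 := congrArg norm c2
    rw [norm_mul, norm_neg, norm_mul, hei, hunit, one_mul] at c3
    exact c3
  rw [Finset.sum_congr rfl (fun i _ => h4 i)] at h3
  rw [Finset.sum_const, Finset.card_univ, Fintype.card_fin, nsmul_eq_mul] at h3
  have h5 : ‖q‖ - ‖b0‖ ≤ ‖q + e0 * b0‖ := by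
    have h6 := norm_sub_le (q + e0 * b0) (e0 * b0)
    rw [add_sub_cancel_right, norm_mul, he0, hunit, one_mul] at h6
    linarith
  have h7 : 0 < ‖q + e0 * b0‖ := norm_pos_iff.2 hV
  have h8 : ‖q + e0 * b0‖ * ((g : ℝ) * ‖b0‖) ≤ ‖q + e0 * b0‖ * (‖q‖ + ‖b0‖) := by
    have h9 : (‖q‖ - ‖b0‖) * (‖q‖ + ‖b0‖) ≤ ‖q + e0 * b0‖ * (‖q‖ + ‖b0‖) :=
      mul_le_mul_of_nonneg_right h5 (add_nonneg (norm_nonneg _) (norm_nonneg _))
    nlinarith
  have h10 := le_of_mul_le_mul_left h8 h7
  linarith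

/-- (DRB) -/
theorem drb (hSPK : SPKS) (hAs : AsanoS) (hPoly : PolyS) (hEv : EvRS) (hZf : ZfinS)
    (hMm : MmonoS) : DRBS := by
  intro O _ _ _ _ P L _ _ _ _ _ phi D eta g S hphi hbin hst hz hray hd hI hV
  have hMpos : ∀ p : RO O, 0 < M p := fun p => Real.exp_pos _
  rcases Nat.lt_or_ge g 2 with hg | hg
  · have h1 : (g : ℝ) ≤ 1 := by
      have : g ≤ 1 := by omega
      exact_mod_cast this
    have h2 : ((g : ℝ) - 1) * M (D.coeff (S 0)) ≤ 0 :=
      mul_nonpos_of_nonpos_of_nonneg (by linarith) (hMpos _).le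
    exact h2.trans (hMpos _).le
  · have hg2 : (2 : ℝ) ≤ g := by exact_mod_cast hg
    have hq0 : D.coeff 0 ≠ 0 := by
      intro h
      apply hz 1
      rw [h, map_zero]
    refine hMm O (D.coeff 0) (D.coeff (S 0)) ((g : ℝ) - 1) hq0 (hray 0).1 (by linarith) ?_
    have hclosed : IsClosed {z : Circle | ((g : ℝ) - 1) * ‖evR z (D.coeff (S 0))‖ ≤
        ‖evR z (D.coeff 0)‖} := by
      apply isClosed_le
      · exact continuous_const.mul ((hEv O).2.2.2 _).norm
      · exact ((hEv O).2.2.2 _).norm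
    have hdense := dense_compl_finite _ (hZf O _ hV)
    have hsub : {z : Circle | evR z (D.coeff 0 + (eta (S 0) : RO O) * D.coeff (S 0)) = 0}ᶜ ⊆
        {z : Circle | ((g : ℝ) - 1) * ‖evR z (D.coeff (S 0))‖ ≤ ‖evR z (D.coeff 0)‖} := by
      intro z hz'
      exact pointwise hSPK hAs hPoly hEv O P L phi D eta g S hphi hbin hst hz hray hd hI z hz'
    intro z
    have h1 := hdense.closure_eq
    have h2 : (Set.univ : Set Circle) ⊆ {z : Circle | ((g : ℝ) - 1) * ‖evR z (D.coeff (S 0))‖ ≤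
        ‖evR z (D.coeff 0)‖} := by
      rw [← h1]
      exact closure_minimal hsub hclosed
    exact h2 (Set.mem_univ z)

end Pool.Agent.B5.H49
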