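import Pool.Agent.Lib.MP_b5021c_nt.IfaceL2

/-!
# Board b5, row JPT: the induction step in class `P`
-/

namespace Pool.Agent.B5.H49

open Pool.Agent.B5
open scoped LaurentPolynomial
open Pool.Agent.MP_b5021c_nt (Eis)

/-- A non-zero binary exponent has a port. -/
theorem exists_port {P L : Type} [Fintype P] [DecidableEq P] [AddCommGroup L]
    (phi : L →+ (P → ℤ)) (hphi : Function.Injective phi) (S : L) (hb : Bin phi S) (hS : S ≠ 0) :
    ∃ i0 : P, co phi i0 S = 1 := by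
  have h1 : phi S ≠ 0 := fun h => hS (hphi (by rw [h, map_zero]))
  obtain ⟨i, hi⟩ := Function.ne_iff.1 h1
  refine ⟨i, ?_⟩
  rcases hb i with h | h
  · exact absurd h hi
  · exact h

theorem bVL_mono : Monotone bVL := by
  intro x y hxy
  unfold bVL
  apply max_le_max le_rfl
  linarith

theorem one_le_bVL (x : ℝ) : 1 ≤ bVL x := le_max_left _ _

/-- A product of numbers greater than one which is at most one is empty. -/
theorem prod_empty (m : ℕ) (N' : Fin m → ℝ) (h : ∀ i, 1 < N' i) (h2 : ∏ i, N' i ≤ 1) : m = 0 := by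
  rcases Nat.eq_zero_or_pos m with h0 | h0
  · exact h0
  · exfalso
    have : 1 < ∏ i, N' i := by
      obtain ⟨k, rfl⟩ : ∃ k, m = k + 1 := ⟨m - 1, by omega⟩
      rw [Fin.prod_univ_succ]
      have h3 : 1 ≤ ∏ i : Fin k, N' i.succ := by
        apply Finset.prod_induction _ (fun x : ℝ => 1 ≤ x)
        · intro a b ha hb
          nlinarith
        · exact le_rfl
        · intro i _
          exact (h _).le
      have h4 := h 0
      nlinarith
    linarith

/-- (JPT) -/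
theorem jpt (hE2 : E2S) (hLOP : LOPS) (hFL : FLS) (hCLO : CLOS) (hJPN : JPNS) (hNVE : NVES)
    (hMV : MVS) (hMmul : MmulS) : JPTS := by
  intro P L _ _ _ _ _ phi D θ hDD hP hd hBV hBP
  obtain ⟨hz, -, -, -, -, hrays⟩ := hE2 Eis P L phi D hDD hd
  have hθ : 1 < θ := hP.1
  have hMQ : M (D.coeff 0) = θ := ((hMV Eis).2 θ _ hP).2
  have hone : ∀ p : RO Eis, 1 ≤ M p := (hMmul Eis).2.1
  have outne : ∀ V : RO Eis, OutP θ V → V ≠ 0 := by
    rintro V (hV | ⟨θ', -, hV⟩)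
    · exact ((hMV Eis).1 _ _ hV).1
    · exact ((hMV Eis).2 _ _ hV).1
  -- the special loads
  have hload : ∀ S : L, ∃ e : (RO Eis)ˣ, Ray D S →
      (∃ N' : ℝ, N' ≤ 2 * θ + 1 ∧ ClassV N' (D.coeff 0 + (e : RO Eis) * D.coeff S)) ∨
      (OutP θ (D.coeff 0 + (e : RO Eis) * D.coeff S) ∧
        ∃ e₂ : (RO Eis)ˣ, e₂ ≠ e ∧ OutP θ (D.coeff 0 + (e₂ : RO Eis) * D.coeff S)) := by
    intro S
    by_cases hS : Ray D S
    · rcases hLOP θ (D.coeff 0) (D.coeff S) hP hS.1 hz (hrays S hS).1 (hrays S hS).2 with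
        ⟨e₁, N', h1, h2⟩ | ⟨e₁, e₂, h12, h1, h2⟩
      · exact ⟨e₁, fun _ => Or.inl ⟨N', h1, h2⟩⟩
      · exact ⟨e₁, fun _ => Or.inr ⟨h1, e₂, h12.symm, h2⟩⟩
    · exact ⟨1, fun h => absurd h hS⟩
  choose eta heta using hload
  have hne : ∀ S, Ray D S → D.coeff 0 + (eta S : RO Eis) * D.coeff S ≠ 0 := by
    intro S hS
    rcases heta S hS with ⟨N', -, h2⟩ | ⟨h1, -⟩
    · exact ((hMV Eis).1 _ _ h2).1
    · exact outne _ h1
  obtain ⟨S, g, hS, hg, hgM, hg1⟩ := hFL Eis P L phi D eta hDD hd hne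
  have hbin : Bin phi S := hDD.bin S hS.1
  obtain ⟨i0, hi0⟩ := exists_port phi hDD.inj S hbin hS.2.1
  have hcc : ∀ e : (RO Eis)ˣ, D.coeff 0 + (e : RO Eis) * D.coeff S ≠ 0 → CC phi D S i0 e :=
    fun e he => ⟨hDD, hd, hS, hi0, he⟩
  -- type II
  have typeII : ∀ e : (RO Eis)ˣ, OutP θ (D.coeff 0 + (e : RO Eis) * D.coeff S) →
      Module.finrank ℤ L = rk (supp (cl (co phi i0) S hi0 e D)) + 1 →
        (Module.finrank ℤ L : ℝ) ≤ 2400 * θ := by
    intro e he hfr
    obtain ⟨c1, c2⟩ := hCLO Eis P L phi D S i0 e hi0 (hcc e (outne _ he))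
    rw [hfr]
    push_cast
    rcases he with hV | ⟨θ', hθ', hV⟩
    · obtain ⟨m, N', l, h1, h2, h3, h4⟩ := c1 1 hV bVL bVL_mono one_le_bVL (fun x _ => hBV x)
      have hm : m = 0 := prod_empty m N' (fun i => (h1 i).1) h2
      subst hm
      simp only [Finset.univ_eq_empty, Finset.prod_empty, mul_one, Finset.sum_empty,
        add_zero] at h3 h4
      rw [hMQ] at h3
      have := hJPN.2.1 θ l hθ h3
      linarith
    · have hθ1 : 1 < θ' := hV.1
      obtain ⟨l, h | h⟩ := c2 θ' hV (2400 * θ') (by linarith) (hBP θ' hθ')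
      · rw [hMQ] at h
        have := hJPN.2.1 θ l hθ h.1
        linarith [h.2]
      · rw [hMQ] at h
        have := hJPN.1 θ θ' l hθ1 hθ' h.1
        linarith [h.2]
  rcases heta S hS with ⟨N, hN, hV⟩ | ⟨h1, e₂, he₂, h2⟩
  · -- type I
    obtain ⟨c1, -⟩ := hCLO Eis P L phi D S i0 (eta S) hi0 (hcc _ (hne S hS))
    obtain ⟨m, N', l, h1, h2, h3, h4⟩ := c1 N hV bVL bVL_mono one_le_bVL (fun x _ => hBV x)
    rw [hMQ] at h3 hgM
    have hsq : ∀ i, Real.sqrt 3 ≤ N' i := by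
      intro i
      obtain ⟨h5, Q', h6⟩ := h1 i
      rcases hNVE _ _ h6 with h | h
      · linarith
      · exact h
    have h5 := hJPN.2.2 θ m N' l hθ hsq (h2.trans hN) h3
    have h6 := hg i0 hi0
    have h7 : (Module.finrank ℤ L : ℝ) = rk (supp (cl (co phi i0) S hi0 (eta S) D)) + 1 + g := by
      rw [h6]; push_cast; ring
    have h8 : (g : ℝ) ≤ 1 + θ := by
      rcases Nat.eq_zero_or_pos g with h0 | h0
      · rw [h0]; push_cast; linarith
      · have h9 : (1 : ℝ) ≤ g := by exact_mod_cast h0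
        have h10 := hone (D.coeff S)
        nlinarith
    rw [h7]
    linarith
  · rcases Nat.eq_zero_or_pos g with h0 | h0
    · refine typeII (eta S) h1 ?_
      rw [hg i0 hi0, h0]
    · exact typeII e₂ h2 (hg1 h0 e₂ he₂ i0 hi0)

end Pool.Agent.B5.H49
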